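import Mathlib

/-!
# Stable rank one does not pass from the asymptotic sequence algebra to its factors

There is a sequence `(Aₙ)` of unital Banach algebras such that `Asy(Aₙ) = ℓ^∞(Aₙ) / c₀(Aₙ)` has
stable rank one although no `Aₙ` has stable rank one.

Construction. Let `B` be a unital Banach algebra with elements `u v = 1`, `v u ≠ 1` (bounded
operators on the bounded sequences and the two shifts). `Aₙ` is `ℂ × B` with the norm
`‖(λ, y)‖ = |λ| + (n + 1) ‖y - λ 1‖`. The unit ball of `Aₙ` is contained in the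
`1 / (n + 1)`-neighbourhood of the scalars (for the norm of `B`), so that a small perturbation of
`λ` makes every bounded sequence invertible with bounded inverses, while the invertible elements of
`Aₙ` are not dense because `Aₙ → B`, `(λ, y) ↦ y`, is a continuous surjective homomorphism.
-/

set_option autoImplicit false

namespace Pool.Agent.Results.MP_c26838_an.AsyStableRankOne

open Filter Topology ENNReal

noncomputable section

/-- A unital Banach algebra has stable rank one if its invertible elements are norm-dense. -/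
def StableRankOne (B : Type) [Ring B] [TopologicalSpace B] : Prop :=
  Dense {b : B | IsUnit b}

section Asy

variable (A : ℕ → Type) [∀ n, NormedRing (A n)] [∀ n, NormOneClass (A n)]

/-- `ℓ^∞(Aₙ)`: the bounded sequences `a` with `aₙ ∈ Aₙ`, with the supremum norm. -/
def Linf : Type := lp A ∞

/-- `ℓ^∞(Aₙ)` is a normed ring with pointwise operations and the supremum norm (Mathlib). -/
instance instLinf : NormedRing (Linf A) := lp.inftyNormedRing (B := A)

/-- The `n`-th term of the sequence `a`. -/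
def Linf.term {A : ℕ → Type} [∀ n, NormedRing (A n)] (a : Linf A) (n : ℕ) : A n :=
  (show lp A ∞ from a) n

variable {A} in
theorem norm_term_le (a : Linf A) (n : ℕ) : ‖a.term n‖ ≤ ‖a‖ :=
  lp.norm_apply_le_norm ENNReal.top_ne_zero (show lp A ∞ from a) n

/-- `‖aₙ‖ → 0`. -/
def IsNull (a : Linf A) : Prop := Tendsto (fun n => ‖a.term n‖) atTop (𝓝 0)

theorem isNull_zero : IsNull A 0 := by
  have : (fun n : ℕ => ‖(0 : Linf A).term n‖) = fun _ => 0 := by
    funext n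
    change ‖(0 : lp A ∞) n‖ = 0
    simp
  change Tendsto (fun n : ℕ => ‖(0 : Linf A).term n‖) atTop (𝓝 0)
  rw [this]
  exact tendsto_const_nhds

theorem isNull_add {a b : Linf A} (ha : IsNull A a) (hb : IsNull A b) : IsNull A (a + b) := by
  have h := Tendsto.add (f := fun n => ‖a.term n‖) (g := fun n => ‖b.term n‖) ha hb
  rw [add_zero] at h
  refine squeeze_zero (fun n => norm_nonneg _) (fun n => ?_) h
  exact norm_add_le (a.term n) (b.term n)

theorem isNull_mul_left (c : Linf A) {a : Linf A} (ha : IsNull A a) : IsNull A (c * a) := by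
  have h := Tendsto.const_mul ‖c‖ (f := fun n => ‖a.term n‖) ha
  rw [mul_zero] at h
  refine squeeze_zero (fun n => norm_nonneg _) (fun n => ?_) h
  exact (norm_mul_le (c.term n) (a.term n)).trans
    (mul_le_mul_of_nonneg_right (norm_term_le c n) (norm_nonneg _))

theorem isNull_mul_right (b : Linf A) {a : Linf A} (ha : IsNull A a) : IsNull A (a * b) := by
  have h := Tendsto.mul_const ‖b‖ (f := fun n => ‖a.term n‖) ha
  rw [zero_mul] at h
  refine squeeze_zero (fun n => norm_nonneg _) (fun n => ?_) h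
  exact (norm_mul_le (a.term n) (b.term n)).trans
    (mul_le_mul_of_nonneg_left (norm_term_le b n) (norm_nonneg _))

/-- `c₀(Aₙ)`: the two-sided ideal of `ℓ^∞(Aₙ)` of all sequences with `‖aₙ‖ → 0`. -/
def c0 : Ideal (Linf A) where
  carrier := {a | IsNull A a}
  zero_mem' := isNull_zero A
  add_mem' := isNull_add A
  smul_mem' c _ ha := isNull_mul_left A c ha

instance c0_isTwoSided : (c0 A).IsTwoSided := ⟨fun b ha => isNull_mul_right A b ha⟩

/-- The asymptotic sequence algebra `Asy(Aₙ) = ℓ^∞(Aₙ) / c₀(Aₙ)`. -/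
def Asy : Type := Linf A ⧸ c0 A

/-- `Asy(Aₙ)` is a ring, the quotient of `ℓ^∞(Aₙ)` by its two-sided ideal `c₀(Aₙ)`. -/
instance instRingAsy : Ring (Asy A) := Ideal.Quotient.ring (c0 A)

/-- `Asy(Aₙ)` carries the quotient norm. -/
instance instNormAsy : SeminormedAddCommGroup (Asy A) :=
  QuotientAddGroup.instSeminormedAddCommGroup (Submodule.toAddSubgroup (c0 A))

/-- The quotient map `ℓ^∞(Aₙ) → Asy(Aₙ)`. -/
def toAsy : Linf A →+* Asy A := Ideal.Quotient.mk (c0 A)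

end Asy

section Example

variable (B : Type) [NormedRing B] [NormedAlgebra ℂ B]

/-- The algebra `ℂ × B`, to be given the norm `‖(λ, y)‖ = |λ| + (n + 1) ‖y - λ 1‖`. -/
def P (_n : ℕ) : Type := ℂ × B

instance (n : ℕ) : Ring (P B n) := inferInstanceAs (Ring (ℂ × B))

instance (n : ℕ) : Algebra ℂ (P B n) := inferInstanceAs (Algebra ℂ (ℂ × B))

variable {B} in
/-- The element `(λ, y)`. -/
def mk {n : ℕ} (l : ℂ) (y : B) : P B n := (l, y)

/-- The norm `|λ| + (n + 1) ‖y - λ 1‖`. -/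
def ringNorm (n : ℕ) : RingNorm (P B n) where
  toFun a := ‖a.1‖ + (n + 1 : ℝ) * ‖a.2 - a.1 • (1 : B)‖
  map_zero' := by
    change ‖(0 : ℂ)‖ + (n + 1 : ℝ) * ‖(0 : B) - (0 : ℂ) • (1 : B)‖ = 0
    simp
  add_le' a b := by
    change ‖a.1 + b.1‖ + (n + 1 : ℝ) * ‖a.2 + b.2 - (a.1 + b.1) • (1 : B)‖ ≤ _
    have h1 := norm_add_le a.1 b.1
    have h2 := norm_add_le (a.2 - a.1 • (1 : B)) (b.2 - b.1 • (1 : B))
    have h3 : a.2 + b.2 - (a.1 + b.1) • (1 : B)
        = (a.2 - a.1 • (1 : B)) + (b.2 - b.1 • (1 : B)) := by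
      rw [add_smul]
      abel
    rw [h3]
    have h4 : (0 : ℝ) ≤ n + 1 := by positivity
    nlinarith [mul_le_mul_of_nonneg_left h2 h4]
  neg' a := by
    change ‖-a.1‖ + (n + 1 : ℝ) * ‖-a.2 - (-a.1) • (1 : B)‖ = _
    rw [norm_neg, neg_smul, ← neg_sub', norm_neg]
  mul_le' a b := by
    change ‖a.1 * b.1‖ + (n + 1 : ℝ) * ‖a.2 * b.2 - (a.1 * b.1) • (1 : B)‖ ≤ _
    have h3 : a.2 * b.2 - (a.1 * b.1) • (1 : B)
        = a.1 • (b.2 - b.1 • (1 : B)) + b.1 • (a.2 - a.1 • (1 : B))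
          + (a.2 - a.1 • (1 : B)) * (b.2 - b.1 • (1 : B)) := by
      simp only [smul_sub, sub_mul, mul_sub, smul_mul_assoc, mul_smul_comm, one_mul, mul_one,
        smul_smul, mul_comm b.1 a.1]
      abel
    rw [h3, norm_mul]
    set x := a.2 - a.1 • (1 : B)
    set y := b.2 - b.1 • (1 : B)
    have h4 : ‖a.1 • y + b.1 • x + x * y‖ ≤ ‖a.1‖ * ‖y‖ + ‖b.1‖ * ‖x‖ + ‖x‖ * ‖y‖ := by
      refine (norm_add_le _ _).trans (add_le_add ((norm_add_le _ _).trans ?_) (norm_mul_le _ _))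
      rw [norm_smul, norm_smul]
    have h5 : (0 : ℝ) ≤ n := Nat.cast_nonneg n
    have hx := norm_nonneg x
    have hy := norm_nonneg y
    have h6 := mul_le_mul_of_nonneg_left h4 (by positivity : (0 : ℝ) ≤ n + 1)
    have h7 : 0 ≤ (n + 1 : ℝ) * n * (‖x‖ * ‖y‖) := by positivity
    nlinarith
  eq_zero_of_map_eq_zero' a h := by
    have h1 : ‖a.1‖ + (n + 1 : ℝ) * ‖a.2 - a.1 • (1 : B)‖ = 0 := h
    have h2 : 0 ≤ (n + 1 : ℝ) * ‖a.2 - a.1 • (1 : B)‖ := by positivity
    have h3 : a.1 = 0 := norm_eq_zero.1 (by linarith [norm_nonneg a.1])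
    have h4 : (n + 1 : ℝ) * ‖a.2 - a.1 • (1 : B)‖ = 0 := by linarith [norm_nonneg a.1]
    rw [h3, zero_smul, sub_zero, mul_eq_zero, norm_eq_zero] at h4
    rcases h4 with h4 | h4
    · exact absurd h4 (by positivity)
    · exact Prod.ext h3 h4

instance (n : ℕ) : NormedRing (P B n) := (ringNorm B n).toNormedRing

theorem norm_def (n : ℕ) (a : P B n) : ‖a‖ = ‖a.1‖ + (n + 1 : ℝ) * ‖a.2 - a.1 • (1 : B)‖ := rfl

instance (n : ℕ) : NormedAlgebra ℂ (P B n) where
  norm_smul_le c a := by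
    rw [norm_def, norm_def]
    change ‖c * a.1‖ + (n + 1 : ℝ) * ‖c • a.2 - (c * a.1) • (1 : B)‖ ≤ _
    rw [mul_smul, ← smul_sub, norm_smul, norm_mul]
    linarith

instance (n : ℕ) : NormOneClass (P B n) where
  norm_one := by
    rw [norm_def]
    change ‖(1 : ℂ)‖ + (n + 1 : ℝ) * ‖(1 : B) - (1 : ℂ) • (1 : B)‖ = 1
    simp

theorem norm_fst_le {n : ℕ} (a : P B n) : ‖a.1‖ ≤ ‖a‖ := by
  rw [norm_def]
  have : 0 ≤ (n + 1 : ℝ) * ‖a.2 - a.1 • (1 : B)‖ := by positivity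
  linarith

theorem norm_diff_le {n : ℕ} (a : P B n) : (n + 1 : ℝ) * ‖a.2 - a.1 • (1 : B)‖ ≤ ‖a‖ := by
  rw [norm_def]
  linarith [norm_nonneg a.1]

variable [NormOneClass B]

theorem norm_snd_le {n : ℕ} (a : P B n) : ‖a.2‖ ≤ ‖a‖ := by
  rw [norm_def]
  have h1 : ‖a.2‖ ≤ ‖a.2 - a.1 • (1 : B)‖ + ‖a.1 • (1 : B)‖ := by
    simpa using norm_add_le (a.2 - a.1 • (1 : B)) (a.1 • (1 : B))
  rw [norm_smul, norm_one, mul_one] at h1
  have : 0 ≤ (n : ℝ) * ‖a.2 - a.1 • (1 : B)‖ := by positivity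
  linarith

instance [CompleteSpace B] (n : ℕ) : CompleteSpace (P B n) := by
  refine Metric.complete_of_cauchySeq_tendsto fun u hu => ?_
  have h1 : CauchySeq (fun k => (u k).1) := by
    rw [Metric.cauchySeq_iff'] at hu ⊢
    intro ε hε
    obtain ⟨N, hN⟩ := hu ε hε
    refine ⟨N, fun k hk => lt_of_le_of_lt ?_ (hN k hk)⟩
    rw [dist_eq_norm, dist_eq_norm]
    exact norm_fst_le B (u k - u N)
  have h2 : CauchySeq (fun k => (u k).2) := by
    rw [Metric.cauchySeq_iff'] at hu ⊢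
    intro ε hε
    obtain ⟨N, hN⟩ := hu ε hε
    refine ⟨N, fun k hk => lt_of_le_of_lt ?_ (hN k hk)⟩
    rw [dist_eq_norm, dist_eq_norm]
    exact norm_snd_le B (u k - u N)
  obtain ⟨l, hl⟩ := cauchySeq_tendsto_of_complete h1
  obtain ⟨y, hy⟩ := cauchySeq_tendsto_of_complete h2
  refine ⟨mk l y, ?_⟩
  rw [tendsto_iff_norm_sub_tendsto_zero]
  have h3 : Tendsto (fun k => ‖(u k).1 - l‖ + (n + 1 : ℝ) * ‖((u k).2 - y) -
      ((u k).1 - l) • (1 : B)‖) atTop (𝓝 (‖l - l‖ + (n + 1 : ℝ) * ‖(y - y) - (l - l) • (1 : B)‖)) :=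
    ((hl.sub_const l).norm).add
      ((((hy.sub_const y).sub ((hl.sub_const l).smul_const (1 : B))).norm).const_mul _)
  simp only [sub_self, norm_zero, zero_smul, mul_zero, add_zero] at h3
  exact h3

/-- If `u v = 1` and `v u ≠ 1` in `B` then `ℂ × B` (any `n`) does not have stable rank one. -/
theorem not_sr [CompleteSpace B] (u v : B) (huv : u * v = 1) (hvu : v * u ≠ 1) (n : ℕ) :
    ¬ StableRankOne (P B n) := by
  intro h
  have h1 := Metric.mem_closure_iff.1 (h (mk 0 v)) (1 / (‖u‖ + 1)) (by positivity)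
  obtain ⟨t, ht, hd⟩ := h1
  have ht2 : IsUnit t.2 := by
    have ht' : IsUnit (t : ℂ × B) := ht
    exact (Prod.isUnit_iff.1 ht').2
  rw [dist_eq_norm] at hd
  have hd2 : ‖v - t.2‖ < 1 / (‖u‖ + 1) := lt_of_le_of_lt (norm_snd_le B (mk 0 v - t)) hd
  have h2 : ‖u * (v - t.2)‖ < 1 := by
    refine (norm_mul_le _ _).trans_lt ?_
    rw [lt_div_iff₀ (by positivity)] at hd2
    nlinarith [norm_nonneg u, norm_nonneg (v - t.2)]
  have h3 : u * t.2 = 1 - u * (v - t.2) := by rw [mul_sub, huv]; abel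
  have h4 : IsUnit (u * t.2) := by
    rw [h3]
    exact isUnit_one_sub_of_norm_lt_one h2
  have h5 : IsUnit u := by
    obtain ⟨w, hw⟩ := ht2
    rw [← hw] at h4
    exact (Units.isUnit_mul_units u w).1 h4
  apply hvu
  apply h5.mul_left_cancel
  rw [← mul_assoc, huv, one_mul, mul_one]

/-- `(λ, λ (1 + y))` has an inverse with a norm bound. -/
theorem exists_inv {n : ℕ} (a : P B n) (ε C : ℝ) (hε : 0 < ε) (ha : ε ≤ ‖a.1‖) (hC : ‖a‖ ≤ C)
    (hn : 2 * C ≤ ε * (n + 1)) [CompleteSpace B] :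
    ∃ c : P B n, a * c = 1 ∧ c * a = 1 ∧ ‖c‖ ≤ ε⁻¹ * (1 + 2 * C * ε⁻¹) := by
  have hl : a.1 ≠ 0 := norm_pos_iff.1 (hε.trans_le ha)
  have hx := norm_diff_le B a
  set x : B := a.2 - a.1 • (1 : B) with hxdef
  set t : B := -(a.1⁻¹ • x) with ht
  have hla : ‖a.1⁻¹‖ ≤ ε⁻¹ := by
    rw [norm_inv]
    exact inv_anti₀ hε ha
  have hnt : (n + 1 : ℝ) * ‖t‖ ≤ C * ε⁻¹ := by
    rw [ht, norm_neg, norm_smul]
    have h1 : (n + 1 : ℝ) * ‖x‖ ≤ C := hx.trans hC
    have h2 : 0 ≤ (n + 1 : ℝ) * ‖x‖ := by positivity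
    calc (n + 1 : ℝ) * (‖a.1⁻¹‖ * ‖x‖) = ((n + 1 : ℝ) * ‖x‖) * ‖a.1⁻¹‖ := by ring
      _ ≤ C * ε⁻¹ := mul_le_mul h1 hla (norm_nonneg _) (h2.trans h1)
  have ht2 : ‖t‖ ≤ 1 / 2 := by
    have h1 : (n + 1 : ℝ) * ‖t‖ * (2 * ε) ≤ C * ε⁻¹ * (2 * ε) :=
      mul_le_mul_of_nonneg_right hnt (by positivity)
    have h2 : C * ε⁻¹ * (2 * ε) = 2 * C := by
      field_simp
    rw [h2] at h1
    have h3 : (n + 1 : ℝ) * ‖t‖ * (2 * ε) ≤ ε * (n + 1) := h1.trans hn
    have h4 : 0 < ε * (n + 1 : ℝ) := by positivity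
    by_contra h5
    push Not at h5
    nlinarith [mul_lt_mul_of_pos_left h5 h4]
  obtain ⟨w, hw⟩ := isUnit_one_sub_of_norm_lt_one (x := t) (by linarith)
  have hw1 : (↑w⁻¹ : B) = 1 + t * (↑w⁻¹ : B) := by
    have : (1 - t) * (↑w⁻¹ : B) = 1 := by rw [← hw]; exact w.mul_inv
    rw [sub_mul, one_mul, sub_eq_iff_eq_add] at this
    exact this
  have hw2 : ‖(↑w⁻¹ : B)‖ ≤ 2 := by
    have h1 : ‖(↑w⁻¹ : B)‖ ≤ ‖(1 : B)‖ + ‖t‖ * ‖(↑w⁻¹ : B)‖ := by
      calc ‖(↑w⁻¹ : B)‖ = ‖1 + t * (↑w⁻¹ : B)‖ := by rw [← hw1]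
        _ ≤ _ := (norm_add_le _ _).trans (add_le_add le_rfl (norm_mul_le _ _))
    rw [norm_one] at h1
    nlinarith [norm_nonneg (↑w⁻¹ : B)]
  have ha2 : a.2 = a.1 • (w : B) := by
    rw [hw, ht, sub_neg_eq_add, smul_add, smul_smul, mul_inv_cancel₀ hl, one_smul, hxdef]
    abel
  refine ⟨mk a.1⁻¹ (a.1⁻¹ • (↑w⁻¹ : B)), ?_, ?_, ?_⟩
  · refine Prod.ext ?_ ?_
    · exact mul_inv_cancel₀ hl
    · change a.2 * (a.1⁻¹ • (↑w⁻¹ : B)) = 1
      rw [ha2, smul_mul_smul_comm, mul_inv_cancel₀ hl, w.mul_inv, one_smul]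
  · refine Prod.ext ?_ ?_
    · exact inv_mul_cancel₀ hl
    · change (a.1⁻¹ • (↑w⁻¹ : B)) * a.2 = 1
      rw [ha2, smul_mul_smul_comm, inv_mul_cancel₀ hl, w.inv_mul, one_smul]
  · rw [norm_def]
    change ‖a.1⁻¹‖ + (n + 1 : ℝ) * ‖a.1⁻¹ • (↑w⁻¹ : B) - a.1⁻¹ • (1 : B)‖ ≤ _
    rw [← smul_sub, norm_smul]
    have h1 : (↑w⁻¹ : B) - 1 = t * (↑w⁻¹ : B) := by
      nth_rewrite 1 [hw1]
      abel
    have h2 : (n + 1 : ℝ) * ‖(↑w⁻¹ : B) - 1‖ ≤ 2 * C * ε⁻¹ := by
      rw [h1]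
      have h3 : ‖t * (↑w⁻¹ : B)‖ ≤ ‖t‖ * 2 :=
        (norm_mul_le _ _).trans (mul_le_mul_of_nonneg_left hw2 (norm_nonneg _))
      have h4 := mul_le_mul_of_nonneg_left h3 (by positivity : (0 : ℝ) ≤ n + 1)
      nlinarith
    have h5 : (n + 1 : ℝ) * (‖a.1⁻¹‖ * ‖(↑w⁻¹ : B) - 1‖)
        = ‖a.1⁻¹‖ * ((n + 1 : ℝ) * ‖(↑w⁻¹ : B) - 1‖) := by ring
    rw [h5]
    have h6 : ‖a.1⁻¹‖ * ((n + 1 : ℝ) * ‖(↑w⁻¹ : B) - 1‖) ≤ ε⁻¹ * (2 * C * ε⁻¹) :=
      mul_le_mul hla h2 (by positivity) (by positivity)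
    linarith

/-- `Asy(Aₙ)` has stable rank one. -/
theorem asy_sr [CompleteSpace B] : StableRankOne (Asy (P B)) := by
  rw [StableRankOne, Metric.dense_iff]
  intro x r hr
  obtain ⟨a, ha⟩ := Ideal.Quotient.mk_surjective (I := c0 (P B)) x
  change toAsy (P B) a = x at ha
  subst ha
  set ε : ℝ := r / 4 with hε
  have hε0 : 0 < ε := by positivity
  -- the perturbed sequence
  let l : ℕ → ℂ := fun n => if ε ≤ ‖(a.term n).1‖ then (a.term n).1 else (ε : ℂ)
  have hl : ∀ n, ε ≤ ‖l n‖ := by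
    intro n
    change ε ≤ ‖(if ε ≤ ‖(a.term n).1‖ then (a.term n).1 else (ε : ℂ) : ℂ)‖
    split_ifs with h
    · exact h
    · rw [Complex.norm_real, Real.norm_of_nonneg hε0.le]
  have hl2 : ∀ n, ‖l n - (a.term n).1‖ ≤ 2 * ε := by
    intro n
    change ‖(if ε ≤ ‖(a.term n).1‖ then (a.term n).1 else (ε : ℂ) : ℂ) - (a.term n).1‖ ≤ _
    split_ifs with h
    · rw [sub_self, norm_zero]
      positivity
    · push Not at h
      refine (norm_sub_le _ _).trans ?_
      rw [Complex.norm_real, Real.norm_of_nonneg hε0.le]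
      linarith
  let b : ∀ n, P B n := fun n => mk (l n) ((a.term n).2 + (l n - (a.term n).1) • (1 : B))
  have hb : ∀ n, ‖b n - a.term n‖ ≤ 2 * ε := by
    intro n
    rw [norm_def]
    change ‖l n - (a.term n).1‖ + (n + 1 : ℝ) * ‖((a.term n).2 + (l n - (a.term n).1) • (1 : B)
      - (a.term n).2) - (l n - (a.term n).1) • (1 : B)‖ ≤ _
    rw [add_sub_cancel_left, sub_self, norm_zero, mul_zero, add_zero]
    exact hl2 n
  have hbn : ∀ n, ‖b n‖ ≤ ‖a‖ + 2 * ε := by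
    intro n
    have h1 := norm_term_le a n
    have h2 : ‖b n‖ ≤ ‖b n - a.term n‖ + ‖a.term n‖ := by
      simpa using norm_add_le (b n - a.term n) (a.term n)
    linarith [hb n]
  set C : ℝ := ‖a‖ + 2 * ε with hC
  have hC0 : 0 ≤ C := by positivity
  have hbm : Memℓp b ∞ := memℓp_infty ⟨C, by rintro _ ⟨n, rfl⟩; exact hbn n⟩
  let b' : Linf (P B) := (⟨b, hbm⟩ : lp (P B) ∞)
  obtain ⟨N, hN⟩ := exists_nat_gt (2 * C / ε)
  have hex : ∀ n, N ≤ n → ∃ c : P B n, b n * c = 1 ∧ c * b n = 1 ∧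
      ‖c‖ ≤ ε⁻¹ * (1 + 2 * C * ε⁻¹) := by
    intro n hn
    refine exists_inv B (b n) ε C hε0 (hl n) (hbn n) ?_
    rw [div_lt_iff₀ hε0] at hN
    have : (N : ℝ) ≤ n := by exact_mod_cast hn
    nlinarith
  choose! c hc1 hc2 hc3 using hex
  let c0' : ∀ n, P B n := fun n => if N ≤ n then c n else 0
  have hcm : Memℓp c0' ∞ := by
    refine memℓp_infty ⟨ε⁻¹ * (1 + 2 * C * ε⁻¹), ?_⟩
    rintro _ ⟨n, rfl⟩
    change ‖(if N ≤ n then c n else 0 : P B n)‖ ≤ _
    split_ifs with h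
    · exact hc3 n h
    · rw [norm_zero]
      positivity
  let c' : Linf (P B) := (⟨c0', hcm⟩ : lp (P B) ∞)
  have hbc : b' * c' - 1 ∈ c0 (P B) := by
    change Tendsto (fun n => ‖(b' * c' - 1 : Linf (P B)).term n‖) atTop (𝓝 0)
    refine tendsto_const_nhds.congr' ?_
    filter_upwards [eventually_ge_atTop N] with n hn
    have h1 : (b' * c' - 1 : Linf (P B)).term n = b n * (if N ≤ n then c n else 0) - 1 := rfl
    rw [h1, if_pos hn, hc1 n hn, sub_self, norm_zero]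
  have hcb : c' * b' - 1 ∈ c0 (P B) := by
    change Tendsto (fun n => ‖(c' * b' - 1 : Linf (P B)).term n‖) atTop (𝓝 0)
    refine tendsto_const_nhds.congr' ?_
    filter_upwards [eventually_ge_atTop N] with n hn
    have h1 : (c' * b' - 1 : Linf (P B)).term n = (if N ≤ n then c n else 0) * b n - 1 := rfl
    rw [h1, if_pos hn, hc2 n hn, sub_self, norm_zero]
  refine ⟨toAsy (P B) b', ?_, ?_⟩
  · rw [Metric.mem_ball, dist_eq_norm]
    have h1 : ‖b' - a‖ ≤ 2 * ε := by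
      refine lp.norm_le_of_forall_le (f := (show lp (P B) ∞ from b' - a)) (by positivity)
        fun n => ?_
      exact hb n
    have h2 : ‖toAsy (P B) b' - toAsy (P B) a‖ ≤ ‖b' - a‖ :=
      QuotientAddGroup.norm_mk_le_norm (S := Submodule.toAddSubgroup (c0 (P B))) (m := b' - a)
    exact lt_of_le_of_lt (h2.trans h1) (by linarith)
  · have e1 : toAsy (P B) b' * toAsy (P B) c' = 1 := by
      rw [← map_mul, ← map_one (toAsy (P B))]
      exact Ideal.Quotient.eq.2 hbc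
    have e2 : toAsy (P B) c' * toAsy (P B) b' = 1 := by
      rw [← map_mul, ← map_one (toAsy (P B))]
      exact Ideal.Quotient.eq.2 hcb
    exact ⟨⟨toAsy (P B) b', toAsy (P B) c', e1, e2⟩, rfl⟩

end Example

section Shift

open BoundedContinuousFunction

/-- The bounded sequences. -/
abbrev E : Type := BoundedContinuousFunction ℕ ℂ

/-- The left shift. -/
def shiftL : E →L[ℂ] E :=
  LinearMap.mkContinuous
    { toFun := fun f => BoundedContinuousFunction.ofNormedAddCommGroup (fun n => f (n + 1))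
        continuous_of_discreteTopology ‖f‖ (fun n => f.norm_coe_le_norm _)
      map_add' := fun f g => by ext n; simp
      map_smul' := fun c f => by ext n; simp } 1 (fun f => by
        rw [one_mul]
        exact BoundedContinuousFunction.norm_ofNormedAddCommGroup_le _ (norm_nonneg _)
          (fun n => f.norm_coe_le_norm _))

/-- The right shift. -/
def shiftR : E →L[ℂ] E :=
  LinearMap.mkContinuous
    { toFun := fun f => BoundedContinuousFunction.ofNormedAddCommGroup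
        (fun n => if n = 0 then 0 else f (n - 1))
        continuous_of_discreteTopology ‖f‖ (fun n => by
          split_ifs
          · rw [norm_zero]; exact norm_nonneg _
          · exact f.norm_coe_le_norm _)
      map_add' := fun f g => by
        ext n
        by_cases h : n = 0 <;> simp [h]
      map_smul' := fun c f => by
        ext n
        by_cases h : n = 0 <;> simp [h] } 1 (fun f => by
        rw [one_mul]
        exact BoundedContinuousFunction.norm_ofNormedAddCommGroup_le _ (norm_nonneg _) (fun n => by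
          split_ifs
          · rw [norm_zero]; exact norm_nonneg _
          · exact f.norm_coe_le_norm _))

theorem shift_mul : shiftL * shiftR = 1 := by
  ext f n
  change (if n + 1 = 0 then 0 else f (n + 1 - 1)) = f n
  simp

theorem shift_mul_ne : shiftR * shiftL ≠ 1 := by
  intro h
  have h1 := congrArg (fun T : E →L[ℂ] E => T (BoundedContinuousFunction.const ℕ (1 : ℂ)) 0) h
  change (if (0 : ℕ) = 0 then (0 : ℂ) else
    (BoundedContinuousFunction.const ℕ (1 : ℂ)) (0 - 1 + 1)) = (1 : ℂ) at h1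
  simp at h1

instance : Nontrivial E := ⟨⟨0, BoundedContinuousFunction.const ℕ (1 : ℂ), fun h => by
  have h1 := congrArg (fun f : E => f 0) h
  simp at h1⟩⟩

end Shift

/-- **Negative answer to Q1.** There is a sequence of unital Banach algebras `Aₙ` (complex,
complete, submultiplicative norm, `‖1‖ = 1`) such that `Asy(Aₙ)` has stable rank one but no `Aₙ`
has stable rank one. -/
theorem result : ∃ (A : ℕ → Type) (_ : ∀ n, NormedRing (A n)) (_ : ∀ n, NormOneClass (A n))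
    (_ : ∀ n, NormedAlgebra ℂ (A n)) (_ : ∀ n, CompleteSpace (A n)),
    StableRankOne (Asy A) ∧ ∀ n, ¬ StableRankOne (A n) :=
  ⟨P (E →L[ℂ] E), inferInstance, inferInstance, inferInstance, inferInstance,
    asy_sr (E →L[ℂ] E), fun n => not_sr (E →L[ℂ] E) shiftL shiftR shift_mul shift_mul_ne n⟩

end

end Pool.Agent.Results.MP_c26838_an.AsyStableRankOne
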